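import Pool.Agent.Y217.HK.Inst
import Pool.Agent.Helper281.Gr.Gen

/-! Measurability of the category quantifier (project HK, job HK-7). -/

set_option autoImplicit false

namespace Pool.Agent.Y348.HK

open MeasureTheory Filter Topology Set

theorem catq : Pool.Agent.Y217.HK.JCatQ := by
  intro A W _ _ _ _ _ B hB
  have h := Pool.Agent.Helper281.Gr.measurableSet_gen (G := W) (X := A)
    (P := fun a w => (a, w) ∈ B) hB isOpen_univ
  have h2 : {a : A | ∀ᶠ w in residual W, (a, w) ∈ B} =
      {x : A | ∀ᶠ g in residual W, g ∈ (univ : Set W) → (x, g) ∈ B} := by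
    ext a
    simp
  rw [h2]
  exact h

end Pool.Agent.Y348.HK
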