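import Pool.Agent.Y217.HK.Inst
import Pool.Agent.H65R4.KU

/-! Every residual set contains one closed under adding generic rows (project HK, job HK-8). -/

set_option autoImplicit false

namespace Pool.Agent.Y348.HK

open MeasureTheory Filter Topology Set
open Pool.Agent.Y217.HK

lemma continuous_addRow (k : ℕ) : Continuous fun p : Om × (ℕ → Bool) => addRow k p.2 p.1 := by
  refine continuous_pi fun i => continuous_pi fun j => ?_
  unfold addRow
  by_cases h : i = k
  · simp only [h, if_true]
    have h1 : Continuous fun p : Om × (ℕ → Bool) => (p.1 k j, p.2 j) := by fun_prop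
    exact (continuous_of_discreteTopology (f := fun q : Bool × Bool => xor q.1 q.2)).comp h1
  · simp only [h, if_false]
    fun_prop

lemma addRow_addRow (k : ℕ) (g : ℕ → Bool) (x : Om) : addRow k g (addRow k g x) = x := by
  funext i j
  unfold addRow
  by_cases h : i = k <;> simp [h]

/-- Adding the row `g` as a homeomorphism. -/
def rowHomeo (k : ℕ) (g : ℕ → Bool) : Om ≃ₜ Om where
  toFun := addRow k g
  invFun := addRow k g
  left_inv := addRow_addRow k g
  right_inv := addRow_addRow k g
  continuous_toFun := (continuous_addRow k).comp (by fun_prop : Continuous fun x : Om => (x, g))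
  continuous_invFun := (continuous_addRow k).comp (by fun_prop : Continuous fun x : Om => (x, g))

lemma isOpenMap_addRow (k : ℕ) : IsOpenMap fun p : Om × (ℕ → Bool) => addRow k p.2 p.1 := by
  intro U hU
  have h : (fun p : Om × (ℕ → Bool) => addRow k p.2 p.1) '' U =
      ⋃ g : ℕ → Bool, addRow k g '' {x : Om | (x, g) ∈ U} := by
    ext y
    simp only [mem_image, mem_iUnion, mem_setOf_eq, Prod.exists]
    constructor
    · rintro ⟨x, g, h1, h2⟩
      exact ⟨g, x, h1, h2⟩
    · rintro ⟨g, x, h1, h2⟩
      exact ⟨x, g, h1, h2⟩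
  rw [h]
  refine isOpen_iUnion fun g => ?_
  exact (rowHomeo k g).isOpenMap _ (hU.preimage (by fun_prop : Continuous fun x : Om => (x, g)))

lemma ev_addRow {D : Set Om} (hD : D ∈ residual Om) (k : ℕ) :
    ∀ᶠ x in residual Om, ∀ᶠ g in residual (ℕ → Bool), addRow k g x ∈ D := by
  have h1 : (fun p : Om × (ℕ → Bool) => addRow k p.2 p.1) ⁻¹' D ∈ residual (Om × (ℕ → Bool)) :=
    (tendsto_residual_of_isOpenMap (continuous_addRow k) (isOpenMap_addRow k)) hD
  have h2 : IsMeagre ((fun p : Om × (ℕ → Bool) => addRow k p.2 p.1) ⁻¹' D)ᶜ := by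
    unfold IsMeagre
    rwa [compl_compl]
  filter_upwards [Pool.Agent.H65R4.ku_meagre h2] with x hx
  have h3 : ({y : ℕ → Bool | (x, y) ∈ ((fun p : Om × (ℕ → Bool) => addRow k p.2 p.1) ⁻¹' D)ᶜ})ᶜ ∈
      residual (ℕ → Bool) := hx
  filter_upwards [h3] with g hg
  by_contra hcon
  exact hg hcon

theorem cl : Pool.Agent.Y217.HK.JCl := by
  intro D hD
  let E : ℕ → Set Om := fun n => Nat.rec D
    (fun _ F => {x | x ∈ F ∧ ∀ k : ℕ, ∀ᶠ g in residual (ℕ → Bool), addRow k g x ∈ F}) n
  have hE0 : E 0 = D := rfl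
  have hE1 : ∀ n, E (n + 1) =
      {x | x ∈ E n ∧ ∀ k : ℕ, ∀ᶠ g in residual (ℕ → Bool), addRow k g x ∈ E n} := fun n => rfl
  have hres : ∀ n, E n ∈ residual Om := by
    intro n
    induction n with
    | zero => exact hD
    | succ n ih =>
      rw [hE1]
      have h1 : ∀ᶠ x in residual Om, ∀ k : ℕ, ∀ᶠ g in residual (ℕ → Bool),
          addRow k g x ∈ E n := eventually_countable_forall.2 fun k => ev_addRow ih k
      filter_upwards [ih, h1] with x hx1 hx2
      exact ⟨hx1, hx2⟩
  refine ⟨⋂ n, E n, ?_, ?_, ?_⟩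
  · intro x hx
    exact mem_iInter.1 hx 0
  · exact countable_iInter_mem.2 hres
  · intro x hx k
    have h1 : ∀ n, ∀ᶠ g in residual (ℕ → Bool), addRow k g x ∈ E n := by
      intro n
      have := mem_iInter.1 hx (n + 1)
      rw [hE1] at this
      exact this.2 k
    filter_upwards [eventually_countable_forall.2 h1] with g hg
    exact mem_iInter.2 hg

end Pool.Agent.Y348.HK
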